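import Pool.Agent.V11177.EC.TwoB

/-!
Unions of two cycles: gluing along edge cuts with at most three edges and along two vertices.

A finite graph, loops and parallel edges allowed, has vertex set `V` and edge set `E`; the ends of
the edge `e` are `s e` and `t e`. The operations on graphs keep `V` and `E`: vertices may become
isolated and edges may become loops.

Definitions in `Pool.Agent.V11177.EC.Main`:
* `cs s t Z`, `cutn s t Z`: the set and the number of edges with exactly one end in `Z`;
* `col Z z`: the map that sends all vertices of `Z` to `z` and fixes the others; the graph with ends
  `col Z z (s e)`, `col Z z (t e)` arises by identifying all vertices of `Z` with `z`;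
* `rs s F u`, `rt t F e₀ u v`: the ends in the graph in which the edges in `F` are replaced: `e₀`
  joins `u` to `v`, the other edges in `F` become loops at `u`;
* `Joins s t F u v`: each vertex set containing `u` and not `v` is left by an edge in `F`;
* `Sep s t F u v`: a vertex that is an end of an edge in `F` and of an edge not in `F` is `u` or `v`;
* `Dec P`: the least class of graphs that contains all graphs with `P`, and contains a graph
  - if there are a vertex set `Z`, left by at most three edges, and vertices `z ∈ Z`, `z' ∉ Z` such
    that the graph obtained by identifying all vertices of `Z` and the graph obtained by identifying
    all vertices outside `Z` are in the class (`glue`);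
  - if there are an edge set `F` and vertices `u`, `v` (possibly equal), the only common vertices of
    `F` and its complement, both of which join `u` and `v`, such that the graphs obtained by
    replacing `F`, and by replacing its complement, by one edge from `u` to `v` are in the class
    (`sum`).

`Basic2` (in `Pool.Agent.V11177.EC.TwoB`): the graph has no Petersen minor and has carving width at
most five, pathwidth at most five or treewidth at most four; or it has at most sixteen vertices of
odd degree and no component can be contracted to the Petersen graph; or it is the union of two
cycles.
-/

set_option autoImplicit false

open Finset

namespace Pool.Agent.Results.MP_e6539c_co.SmallCutGluing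

open Pool.Agent.V11177.EC

open Classical in
/-- `C` is a cycle (a disjoint union of circuits): all degrees in `C` are even, a loop counting
twice -/
def IsCycle {V E : Type} (s t : E → V) (C : Finset E) : Prop :=
  ∀ v, Even (∑ e ∈ C, ((if s e = v then 1 else 0) + (if t e = v then 1 else 0)))

open Classical in
/-- Let `G` be a finite graph (loops and parallel edges allowed) in which no vertex set is left by
exactly one edge (no isthmus). If `G` is in the least class of graphs that contains all
Petersen-minor-free graphs of carving width at most five, of pathwidth at most five and of treewidth
at most four, all graphs with at most sixteen vertices of odd degree no component of which can be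
contracted to the Petersen graph, and all unions of two cycles, and is closed under gluing along edge
cuts with at most three edges and along two vertices (see `Dec` above), then `G` is the union of two
cycles. -/
theorem result (V E : Type) [Fintype V] [Fintype E] (s t : E → V)
    (hbridge : ∀ Z : Set V, cutn s t Z ≠ 1) (h : Dec Basic2 s t) :
    ∃ C₁ C₂ : Finset E, IsCycle s t C₁ ∧ IsCycle s t C₂ ∧ C₁ ∪ C₂ = univ := by
  obtain ⟨C₁, C₂, h1, h2, h3⟩ := glue_two s t hbridge h
  exact ⟨C₁, C₂, h1, h2, h3⟩

end Pool.Agent.Results.MP_e6539c_co.SmallCutGluing
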